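import Pool.Agent.H59.L.S8.Y506.RG.Stm

/-!
# Project RG, job NORM: normalisation of a tilted factor
-/

set_option autoImplicit false

namespace Pool.Agent.Y592.RG

open MeasureTheory Set Filter Topology
open Pool.Agent.Y506.RG

theorem sub_int {G : ℝ → ℝ} {m σ : ℝ} (hσ : 0 < σ) (hG : Integrable G) :
    Integrable fun t => G (m + σ * t) := by
  have h1 : Integrable fun x => G (m + x) := hG.comp_add_left m
  exact h1.comp_mul_left' hσ.ne'

theorem sub_eq {G : ℝ → ℝ} {m σ : ℝ} (hσ : 0 < σ) :
    ∫ t, G (m + σ * t) = σ⁻¹ * ∫ s, G s := by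
  have h1 := Measure.integral_comp_mul_left (fun x => G (m + x)) σ
  rw [h1, abs_of_pos (inv_pos.mpr hσ), smul_eq_mul, integral_add_left_eq_self]

theorem norm1 : S_NORM := by
  intro h hh a m hm
  obtain ⟨V', A, hA, hV, hmono, hLip⟩ := hh.pot
  have hcont : Continuous h := by
    have h1 : h = fun s => Real.exp (-(-Real.log (h s))) := by
      funext s
      rw [neg_neg, Real.exp_log (hh.pos s)]
    have h2 : Continuous fun s => -Real.log (h s) := by
      rw [continuous_iff_continuousAt]
      exact fun s => (hV s).continuousAt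
    rw [h1]
    exact Real.continuous_exp.comp h2.neg
  set k : ℝ → ℝ := fun s => h s * Real.exp (a * s) with hk
  have hkpos : ∀ s, 0 < k s := fun s => mul_pos (hh.pos s) (Real.exp_pos _)
  have hkc : Continuous k := by
    rw [hk]
    fun_prop
  have hI : Integrable fun s => (1 + s ^ 2) * k s := by
    have h1 := hh.exps a
    refine h1.congr (Eventually.of_forall fun s => ?_)
    simp only [hk]
    ring
  have hint : ∀ (p : ℝ → ℝ), Continuous p → (∀ s, |p s| ≤ 1 + s ^ 2) →
      Integrable fun s => p s * k s := by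
    intro p hp hb
    have hm0 : AEStronglyMeasurable (fun s => p s * k s) volume := (hp.mul hkc).aestronglyMeasurable
    refine hI.mono hm0 (Eventually.of_forall fun s => ?_)
    rw [Real.norm_eq_abs, Real.norm_eq_abs, abs_mul (p s) (k s), abs_mul (1 + s ^ 2) (k s)]
    exact mul_le_mul_of_nonneg_right ((hb s).trans (le_abs_self _)) (abs_nonneg _)
  have hk0 : Integrable k := by
    have h1 := hint (fun _ => 1) continuous_const (fun s => by
      rw [abs_one]
      nlinarith [sq_nonneg s])
    simpa using h1
  have hk1 : Integrable fun s => s * k s := hint (fun s => s) continuous_id (fun s => by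
    rw [abs_le]
    constructor <;> nlinarith [sq_nonneg (s - 1), sq_nonneg (s + 1)])
  have hk2 : Integrable fun s => s ^ 2 * k s := hint (fun s => s ^ 2) (by fun_prop) (fun s => by
    rw [abs_of_nonneg (sq_nonneg s)]
    linarith)
  set Z : ℝ := ∫ s, k s with hZdef
  have hm' : ∫ s, s * k s = m * Z := hm
  have hZ : 0 < Z := by
    rw [hZdef, integral_pos_iff_support_of_nonneg (fun s => (hkpos s).le) hk0]
    have h1 : Function.support k = univ := by
      ext s
      simp [(hkpos s).ne']
    rw [h1]
    simp
  have hc1 : Integrable fun s => (s - m) * k s := by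
    have h1 := hk1.sub (hk0.const_mul m)
    refine h1.congr (Eventually.of_forall fun s => ?_)
    simp only [Pi.sub_apply]
    ring
  have hc2 : Integrable fun s => (s - m) ^ 2 * k s := by
    have h1 := (hk2.sub (hk1.const_mul (2 * m))).add (hk0.const_mul (m ^ 2))
    refine h1.congr (Eventually.of_forall fun s => ?_)
    simp only [Pi.sub_apply, Pi.add_apply]
    ring
  have hmean : ∫ s, (s - m) * k s = 0 := by
    have h1 : ∫ s, (s - m) * k s = ∫ s, (s * k s - m * k s) := by
      congr 1
      funext s
      ring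
    rw [h1, integral_sub hk1 (hk0.const_mul m), integral_const_mul, hm']
    ring
  have hvpos : 0 < ∫ s, (s - m) ^ 2 * k s := by
    rw [integral_pos_iff_support_of_nonneg
      (fun s => mul_nonneg (sq_nonneg _) (hkpos s).le) hc2]
    have h1 : Function.support (fun s => (s - m) ^ 2 * k s) = {m}ᶜ := by
      ext s
      simp [(hkpos s).ne', sub_eq_zero]
    rw [h1]
    have h2 : Ioi m ⊆ {m}ᶜ := fun s hs => ne_of_gt hs
    have h3 : (0 : ENNReal) < volume (Ioi m) := by simp
    exact h3.trans_le (measure_mono h2)
  set σ : ℝ := √((∫ s, (s - m) ^ 2 * k s) / Z) with hσdef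
  have hσ2 : σ ^ 2 = (∫ s, (s - m) ^ 2 * k s) / Z := Real.sq_sqrt (by positivity)
  have hσ : 0 < σ := Real.sqrt_pos.mpr (by positivity)
  set f : ℝ → ℝ := fun t => σ / Z * k (m + σ * t) with hf
  have hfpos : ∀ s, 0 < f s := fun s => by
    have := hkpos (m + σ * s)
    simp only [hf]
    positivity
  refine ⟨σ, Z / σ, f, hσ, by positivity, ?_, ?_, ?_⟩
  · refine ⟨hfpos, ?_, ?_, ?_, ?_, ?_, ?_, ?_⟩
    · simp only [hf]
      fun_prop
    · intro x y t ht0 ht1
      simp only [hf]
      have hc : 0 < σ / Z := by positivity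
      have hx := hkpos (m + σ * x)
      have hy := hkpos (m + σ * y)
      rw [Real.mul_rpow hc.le hx.le, Real.mul_rpow hc.le hy.le]
      have h1 : (σ / Z) ^ (1 - t) * (σ / Z) ^ t = σ / Z := by
        rw [← Real.rpow_add hc]
        simp
      have h2 : k (m + σ * x) ^ (1 - t) * k (m + σ * y) ^ t ≤
          k (m + σ * ((1 - t) * x + t * y)) := by
        have h3 := hh.lc (m + σ * x) (m + σ * y) t ht0 ht1
        have h4 : Real.exp (a * (m + σ * x)) ^ (1 - t) * Real.exp (a * (m + σ * y)) ^ t =
            Real.exp (a * (m + σ * ((1 - t) * x + t * y))) := by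
          rw [← Real.exp_mul, ← Real.exp_mul, ← Real.exp_add]
          congr 1
          ring
        have h5 : (1 - t) * (m + σ * x) + t * (m + σ * y) = m + σ * ((1 - t) * x + t * y) := by
          ring
        rw [h5] at h3
        simp only [hk]
        rw [Real.mul_rpow (hh.pos _).le (Real.exp_pos _).le,
          Real.mul_rpow (hh.pos _).le (Real.exp_pos _).le, ← h4]
        have h6 : 0 ≤ Real.exp (a * (m + σ * x)) ^ (1 - t) * Real.exp (a * (m + σ * y)) ^ t := by
          positivity
        calc h (m + σ * x) ^ (1 - t) * Real.exp (a * (m + σ * x)) ^ (1 - t) *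
              (h (m + σ * y) ^ t * Real.exp (a * (m + σ * y)) ^ t)
            = (h (m + σ * x) ^ (1 - t) * h (m + σ * y) ^ t) *
              (Real.exp (a * (m + σ * x)) ^ (1 - t) * Real.exp (a * (m + σ * y)) ^ t) := by ring
          _ ≤ _ := mul_le_mul_of_nonneg_right h3 h6
      calc (σ / Z) ^ (1 - t) * k (m + σ * x) ^ (1 - t) * ((σ / Z) ^ t * k (m + σ * y) ^ t)
          = ((σ / Z) ^ (1 - t) * (σ / Z) ^ t) *
            (k (m + σ * x) ^ (1 - t) * k (m + σ * y) ^ t) := by ring
        _ = σ / Z * (k (m + σ * x) ^ (1 - t) * k (m + σ * y) ^ t) := by rw [h1]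
        _ ≤ _ := mul_le_mul_of_nonneg_left h2 hc.le
    · exact (sub_int hσ hk0).const_mul (σ / Z)
    · have h1 := sub_int (m := m) hσ (hc2.const_mul (1 / (σ * Z)))
      refine h1.congr (Eventually.of_forall fun t => ?_)
      simp only [hf]
      field_simp
      ring
    · simp only [hf]
      rw [integral_const_mul, sub_eq hσ, ← hZdef]
      field_simp
    · have h1 : ∀ t, t * f t = (fun s => 1 / Z * ((s - m) * k s)) (m + σ * t) := by
        intro t
        simp only [hf]
        field_simp
        ring
      have h3 := sub_eq (G := fun s => 1 / Z * ((s - m) * k s)) (m := m) hσ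
      have h4 : ∫ s, 1 / Z * ((s - m) * k s) = 0 := by
        rw [integral_const_mul, hmean, mul_zero]
      refine (integral_congr_ae (Eventually.of_forall h1)).trans (h3.trans ?_)
      show σ⁻¹ * ∫ s, 1 / Z * ((s - m) * k s) = 0
      rw [h4, mul_zero]
    · have h1 : ∀ t, t ^ 2 * f t = (fun s => 1 / (σ * Z) * ((s - m) ^ 2 * k s)) (m + σ * t) := by
        intro t
        simp only [hf]
        field_simp
        ring
      have h2 : ∫ s, (s - m) ^ 2 * k s = σ ^ 2 * Z := by
        rw [hσ2]
        field_simp
      have h3 := sub_eq (G := fun s => 1 / (σ * Z) * ((s - m) ^ 2 * k s)) (m := m) hσ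
      have h4 : ∫ s, 1 / (σ * Z) * ((s - m) ^ 2 * k s) = 1 / (σ * Z) * (σ ^ 2 * Z) := by
        rw [integral_const_mul, h2]
      refine (integral_congr_ae (Eventually.of_forall h1)).trans (h3.trans ?_)
      show σ⁻¹ * ∫ s, 1 / (σ * Z) * ((s - m) ^ 2 * k s) = 1
      rw [h4]
      field_simp
  · intro s
    simp only [hf]
    have h1 : m + σ * ((s - m) / σ) = s := by
      field_simp
      ring
    rw [h1]
    simp only [hk]
    field_simp
  · refine ⟨fun t => σ * V' (m + σ * t) - σ * a, σ ^ 2 * A, by positivity, ?_, ?_, ?_⟩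
    · intro t
      have h1 : ∀ t, -Real.log (f t) =
          -Real.log (h (m + σ * t)) - a * (m + σ * t) - Real.log (σ / Z) := by
        intro t
        simp only [hf, hk]
        rw [Real.log_mul (by positivity) (mul_pos (hh.pos _) (Real.exp_pos _)).ne',
          Real.log_mul (hh.pos _).ne' (Real.exp_pos _).ne', Real.log_exp]
        ring
      have h2 : (fun t => -Real.log (f t)) = fun t =>
          -Real.log (h (m + σ * t)) - a * (m + σ * t) - Real.log (σ / Z) := funext h1
      rw [h2]
      have h3 : HasDerivAt (fun t : ℝ => m + σ * t) σ t := by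
        simpa using ((hasDerivAt_id t).const_mul σ).const_add m
      have h4 : HasDerivAt (fun t => -Real.log (h (m + σ * t))) (V' (m + σ * t) * σ) t :=
        HasDerivAt.comp (h₂ := fun s => -Real.log (h s)) (h := fun t => m + σ * t) t
          (hV (m + σ * t)) h3
      have h5 := (h4.sub (h3.const_mul a)).sub_const (Real.log (σ / Z))
      refine h5.congr_deriv ?_
      ring
    · intro s t hst
      have h1 : m + σ * s ≤ m + σ * t := by
        have := mul_le_mul_of_nonneg_left hst hσ.le
        linarith
      have h2 := mul_le_mul_of_nonneg_left (hmono h1) hσ.le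
      show σ * V' (m + σ * s) - σ * a ≤ σ * V' (m + σ * t) - σ * a
      linarith
    · intro s t
      have h1 := hLip (m + σ * s) (m + σ * t)
      have h2 : |m + σ * s - (m + σ * t)| = σ * |s - t| := by
        rw [show m + σ * s - (m + σ * t) = σ * (s - t) by ring, abs_mul, abs_of_pos hσ]
      rw [h2] at h1
      show |σ * V' (m + σ * s) - σ * a - (σ * V' (m + σ * t) - σ * a)| ≤ σ ^ 2 * A * |s - t|
      rw [show σ * V' (m + σ * s) - σ * a - (σ * V' (m + σ * t) - σ * a) =
        σ * (V' (m + σ * s) - V' (m + σ * t)) by ring, abs_mul, abs_of_pos hσ]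
      calc σ * |V' (m + σ * s) - V' (m + σ * t)| ≤ σ * (A * (σ * |s - t|)) :=
            mul_le_mul_of_nonneg_left h1 hσ.le
        _ = σ ^ 2 * A * |s - t| := by ring

end Pool.Agent.Y592.RG
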